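import Pool.Agent.Helper16_Fine.Stmt2

/-!
Squad FINE, module FINCP: the main theorem in terms of normals and support numbers.
-/

set_option autoImplicit false

namespace Pool.Agent.H16F.H39

open MeasureTheory Complex Filter Topology ProbabilityTheory Pool.Agent.H16Iso Pool.Agent.H62T
open scoped ENNReal NNReal

theorem cong_cast (hcong : CongStatement) {n m : ℕ} [NeZero n] [NeZero m] (u : Fin n → ℂ)
    (H β : Fin n → ℝ) (u' : Fin m → ℂ) (H' β' : Fin m → ℝ) (h1 : CP u H β) (h2 : CP u' H' β')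
    (h : ∃ h : m = n, (∃ k : Fin n, ∀ i : Fin n, β' (Fin.cast h.symm i) = β (i + k) ∧
        len β' H' (Fin.cast h.symm i) = len β H (i + k)) ∨
      ∃ k : Fin n, ∀ i : Fin n, β' (Fin.cast h.symm i) = β (k - i - 1) ∧
        len β' H' (Fin.cast h.symm i) = len β H (k - i)) :
    Congruent (Poly u H) (Poly u' H') := by
  obtain ⟨h, hh⟩ := h
  subst h
  exact hcong _ u u' H H' β β' h1 h2 hh

theorem fincp (hsides : SidesStatement) (hmatch : MatchStatement) (hlapl : LaplStatement)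
    (hgroup : GroupStatement) (hpair : PairStatement) (hcyc : CycStatement)
    (hcong : CongStatement) : FincpStatement := by
  obtain ⟨β1, hβ1, hβ1le, hpair⟩ := hpair
  have hpi := Real.pi_gt_three
  set β0 : ℝ := min (β1 / 2) (1 / 4) with hβ0
  have hβ0pos : 0 < β0 := lt_min (by linarith) (by norm_num)
  have hβ0lt : β0 < β1 := lt_of_le_of_lt (min_le_left _ _) (by linarith)
  have hβ0q : β0 ≤ 1 / 4 := min_le_right _ _
  have hβ0pi : β0 < Real.pi / 3 := by linarith
  have hcos : 9 / 10 < Real.cos β0 := by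
    have := Real.one_sub_sq_div_two_le_cos (x := β0)
    nlinarith
  obtain ⟨δ, hδ, hδle, hsides⟩ := hsides β0 hβ0pos hβ0pi.le
  refine ⟨δ, hδ, ?_⟩
  intro n m _ _ u H β u' H' β' hP hQ hβ hlen hinjl hinjβ hspec
  obtain ⟨i0, hi0⟩ := Finite.exists_min (len β H)
  set e : ℝ := len β H i0 with he
  have hepos : 0 < e := hP.side i0
  obtain ⟨hβ', hlen', hest⟩ := hsides n m u H β u' H' β' hP hQ hβ hspec e hepos hi0
  set d : ℝ := e * (1 + Real.cos β0) with hd
  have hcos1 : Real.cos β0 ≤ 1 := Real.cos_le_one _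
  have hd2 : d ≤ 2 * e := by nlinarith
  have hdpos : 0 < d := by
    have : 0 < 1 + Real.cos β0 := by linarith
    positivity
  have hp : ∀ i, 0 < β i ∧ β i < β1 := fun i => ⟨hP.pos i, by linarith [hβ i]⟩
  have hp' : ∀ i, 0 < β' i ∧ β' i < β1 := fun i => ⟨hQ.pos i, by linarith [hβ' i]⟩
  have hq : ∀ i, 0 < β i ∧ β i < Real.pi / 3 := fun i => ⟨(hp i).1, by linarith [(hp i).2]⟩
  have hq' : ∀ i, 0 < β' i ∧ β' i < Real.pi / 3 := fun i => ⟨(hp' i).1, by linarith [(hp' i).2]⟩
  have hL := hlapl n m (fun j => β (j - 1)) β (len β H) (fun j => β' (j - 1)) β' (len β' H') e d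
    (fun i => hq _) hq (fun i => hq' _) hq' hepos hi0 hlen' hdpos hd2 hest
  have hld : ∀ i, len β H i < d := by
    intro i
    have h1 := hlen i i0
    have h2 : (19 / 10 : ℝ) * e < d := by rw [hd]; nlinarith
    exact lt_of_le_of_lt h1 h2
  have hM := (hmatch n m u H β u' H' β' hP hQ hspec).2.1
  obtain ⟨σ, hσ⟩ := hgroup n m (fun j => β (j - 1)) β (len β H) (fun j => β' (j - 1)) β'
    (len β' H') (1 / e) d (fun i => hq _) hq (fun i => hq' _) hq' hP.side hQ.side hld hinjl hM hL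
  have hn : 3 ≤ n := by
    have h1 := hP.sum
    have h2 : ∑ i, β i ≤ ∑ _i : Fin n, (1 / 4 : ℝ) :=
      Finset.sum_le_sum fun i _ => by linarith [hβ i]
    rw [h1] at h2
    simp only [Finset.sum_const, Finset.card_univ, Fintype.card_fin, nsmul_eq_mul] at h2
    by_contra hcon
    have h3 : (n : ℝ) ≤ 2 := by exact_mod_cast (by omega : n ≤ 2)
    linarith
  have hang : ∀ j, (β' (j - 1) = β (σ j - 1) ∧ β' j = β (σ j)) ∨
      (β' (j - 1) = β (σ j) ∧ β' j = β (σ j - 1)) := by
    intro j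
    refine hpair (β' (j - 1)) (β' j) (β (σ j - 1)) (β (σ j)) (hp' _).1 (hp' _).2 (hp' _).1
      (hp' _).2 (hp _).1 (hp _).2 (hp _).1 (hp _).2 ?_
    filter_upwards [self_mem_nhdsWithin] with l hl
    exact (hσ j).2 l hl
  exact cong_cast hcong u H β u' H' β' hP hQ
    (hcyc n m β (len β H) β' (len β' H') hn hinjβ σ (fun j => (hσ j).1) hang)

end Pool.Agent.H16F.H39
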