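import Pool.Agent.Helper16_Fine.Stmt2

/-!
Squad FINE, module FINE: the main theorem.
-/

set_option autoImplicit false

namespace Pool.Agent.H16F.H39

open MeasureTheory Complex Filter Topology ProbabilityTheory Pool.Agent.H16Iso Pool.Agent.H62T
open scoped ENNReal NNReal

theorem fine (hfincp : FincpStatement) (hextv : ExtvStatement) (hexq : ExqStatement) :
    FineStatement := by
  obtain ⟨δ, hδ, hfin⟩ := hfincp
  refine ⟨δ, hδ, ?_⟩
  intro n _ v hn hv harg hlen hinjl hinja F hF hspec
  obtain ⟨u, H, β, hP, hpoly, hside⟩ := hextv n v hn hv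
  obtain ⟨m, hm, u', H', β', hQ, hQe⟩ := hexq _ ⟨F, hF, rfl⟩
  have hnorm : ∀ i, ‖v (i + 1) - v i‖ = len β H i := by
    intro i
    rw [hside i, norm_mul, norm_mul, hP.unit i, Complex.norm_I, Complex.norm_real,
      Real.norm_eq_abs, abs_of_pos (hP.side i)]
    ring
  have hang : ∀ i, Complex.arg ((v (i + 2) - v (i + 1)) / (v (i + 1) - v i)) = β i := by
    intro i
    have h11 : (2 : Fin n) = 1 + 1 := by
      rw [Fin.ext_iff, Fin.val_add]
      show 2 % n = ((1 % n) + (1 % n)) % n
      rw [← Nat.add_mod]
    have h2 : i + 2 = i + 1 + 1 := by rw [add_assoc, h11]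
    have hu : u i ≠ 0 := by
      intro h0
      have := hP.unit i
      rw [h0, norm_zero] at this
      exact zero_ne_one this
    have hl : ((len β H i : ℝ) : ℂ) ≠ 0 := by exact_mod_cast (hP.side i).ne'
    have h3 : (v (i + 2) - v (i + 1)) / (v (i + 1) - v i)
        = ((len β H (i + 1) / len β H i : ℝ) : ℂ) *
          (Complex.cos (β i) + Complex.sin (β i) * I) := by
      rw [h2, hside (i + 1), hside i, hP.step i, Complex.exp_mul_I]
      push_cast
      field_simp
    rw [h3]
    rw [Complex.arg_mul_cos_add_sin_mul_I (div_pos (hP.side _) (hP.side _))]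
    exact ⟨by linarith [hP.pos i, Real.pi_pos], (hP.lt i).le⟩
  have hspec' : ∀ k, dirEig (Poly u H) k = dirEig (Poly u' H') k := by
    intro k
    rw [← hpoly, ← hQe]
    exact hspec k
  rw [hpoly, hQe]
  exact hfin n m u H β u' H' β' hP hQ (fun i => by rw [← hang i]; exact harg i)
    (fun i j => by rw [← hnorm i, ← hnorm j]; exact hlen i j)
    (by
      intro i j hij
      apply hinjl
      show ‖v (i + 1) - v i‖ = ‖v (j + 1) - v j‖
      rw [hnorm i, hnorm j]; exact hij)
    (by
      intro i j hij
      apply hinja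
      show Complex.arg _ = Complex.arg _
      rw [hang i, hang j]; exact hij) hspec'

end Pool.Agent.H16F.H39
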