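import Pool.Agent.Helper16_Fine.Stmt2
import Pool.Agent.Helper12_AEU.GermA

/-!
helper39, FINE module PAIR: the pair of exterior angles is determined by the density of the trace
near the left end of its support (from PSI and the inversion of the germ `germA_tau` of helper12).
-/

namespace Pool.Agent.H39F

open MeasureTheory Filter Topology Set
open Pool.Agent.H16F

theorem pair (hpsi : PsiStatement) : PairStatement := by
  have hp := Real.pi_pos
  refine ⟨Real.pi / 3, by positivity, le_rfl, ?_⟩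
  intro β β' γ γ' hβ hβ1 hβ' hβ'1 hγ hγ1 hγ' hγ'1 hev
  obtain ⟨-, -, -, h1⟩ := hpsi β β' hβ hβ1 hβ' hβ'1
  obtain ⟨-, -, -, h2⟩ := hpsi γ γ' hγ hγ1 hγ' hγ'1
  obtain ⟨c, hc2, hc⟩ := (mem_nhdsGT_iff_exists_Ioo_subset).1 hev
  have hc2' : 2 < c := hc2
  have hdiff : ∀ a : ℝ, 0 < a → tau β β' a - tau γ γ' a
      = ∫ l in Ioi (2 : ℝ), Real.exp (-(a * l)) * (psi β β' l - psi γ γ' l) := by
    intro a ha
    obtain ⟨i1, e1⟩ := h1 a ha
    obtain ⟨i2, e2⟩ := h2 a ha
    rw [e1, e2, ← integral_sub i1 i2]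
    congr 1
    ext l
    ring
  have hint : IntegrableOn (fun l => Real.exp (-(1 * l)) * (psi β β' l - psi γ γ' l))
      (Ioi 2) := by
    obtain ⟨i1, -⟩ := h1 1 one_pos
    obtain ⟨i2, -⟩ := h2 1 one_pos
    refine (i1.sub i2).congr ?_
    refine Eventually.of_forall fun l => ?_
    simp only [Pi.sub_apply]
    ring
  have hkey : ∀ᶠ κ in atTop, |tau β β' (κ * 1) - tau γ γ' (κ * 1)|
      ≤ (Real.exp c * ∫ l in Ioi (2 : ℝ), |Real.exp (-(1 * l)) * (psi β β' l - psi γ γ' l)|)
        * Real.exp (-((2 * 1 + (c - 2)) * κ)) := by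
    filter_upwards [eventually_ge_atTop 1] with κ hκ
    rw [mul_one, hdiff κ (by linarith)]
    have hb : ∀ l ∈ Ioi (2 : ℝ), ‖Real.exp (-(κ * l)) * (psi β β' l - psi γ γ' l)‖
        ≤ Real.exp (-((κ - 1) * c)) *
          |Real.exp (-(1 * l)) * (psi β β' l - psi γ γ' l)| := by
      intro l hl
      have hl2 : 2 < l := hl
      by_cases hlc : l < c
      · have h0 : psi β β' l = psi γ γ' l := hc ⟨hl2, hlc⟩
        rw [h0]
        simp
      · push Not at hlc
        rw [Real.norm_eq_abs, abs_mul, abs_mul, Real.abs_exp, Real.abs_exp, ← mul_assoc,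
          ← Real.exp_add]
        refine mul_le_mul_of_nonneg_right (Real.exp_le_exp.2 ?_) (abs_nonneg _)
        nlinarith
    calc |∫ l in Ioi (2 : ℝ), Real.exp (-(κ * l)) * (psi β β' l - psi γ γ' l)|
        ≤ ∫ l in Ioi (2 : ℝ), Real.exp (-((κ - 1) * c)) *
          |Real.exp (-(1 * l)) * (psi β β' l - psi γ γ' l)| := by
          rw [← Real.norm_eq_abs]
          refine norm_integral_le_of_norm_le (hint.abs.const_mul _) ?_
          exact (ae_restrict_iff' measurableSet_Ioi).2 (Eventually.of_forall hb)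
      _ = _ := by
          rw [integral_const_mul, show -((κ - 1) * c) = c + -((2 * 1 + (c - 2)) * κ) by ring,
            Real.exp_add]
          ring
  have h3 : Real.pi / 3 < Real.pi / 2 := by linarith
  exact (Pool.Agent.AEU.H12.germA_tau one_pos one_pos ⟨hβ, by linarith⟩ ⟨hβ', by linarith⟩
    ⟨hγ, by linarith⟩ ⟨hγ', by linarith⟩ (by linarith : (0 : ℝ) < c - 2) hkey).2

end Pool.Agent.H39F
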